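import Mathlib
import Pool.Agent.Lib.helper17.KDet

set_option autoImplicit false

namespace Pool.Agent.Results.MP_360cb4_gt.Counter

open Set Topology Filter H17K

/-- `A` is a `K`-determined subset of `X` -/
def KDet (K : ∀ (Y : Type) [TopologicalSpace Y], Prop) (X : Type) [TopologicalSpace X]
    (A : Set X) : Prop :=
  ∀ (Y : Type) [TopologicalSpace Y], K Y → ∀ f : X → Y, Continuous f →
    ∃! y : Y, closure (f '' A) = closure {y}

/-- the closed `K`-determined subsets of `X` -/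
def PH (K : ∀ (Y : Type) [TopologicalSpace Y], Prop) (X : Type) [TopologicalSpace X] : Type :=
  {A : Set X // IsClosed A ∧ KDet K X A}

/-- the lower Vietoris topology -/
instance topPH (K : ∀ (Y : Type) [TopologicalSpace Y], Prop) (X : Type) [TopologicalSpace X] :
    TopologicalSpace (PH K X) :=
  TopologicalSpace.generateFrom {S | ∃ U : Set X, IsOpen U ∧ S = {A | (A.1 ∩ U).Nonempty}}

/-- the nonempty compact saturated subsets of `X` -/
def PS (X : Type) [TopologicalSpace X] : Type :=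
  {Q : Set X // Q.Nonempty ∧ IsCompact Q ∧ ∀ x ∈ Q, ∀ y, x ∈ closure {y} → y ∈ Q}

/-- the upper Vietoris topology -/
instance topPS (X : Type) [TopologicalSpace X] : TopologicalSpace (PS X) :=
  TopologicalSpace.generateFrom {S | ∃ U : Set X, IsOpen U ∧ S = {Q | Q.1 ⊆ U}}

section general
variable {X Y : Type} [TopologicalSpace X] [TopologicalSpace Y] {i : ℕ}

def MinC (Q : W i → Set X) (C : Set X) : Prop :=
  IsClosed C ∧ (∀ a, (Q a ∩ C).Nonempty) ∧
    ∀ B, IsClosed B → B ⊆ C → (∀ a, (Q a ∩ B).Nonempty) → B = C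

def K1 (Y : Type) [TopologicalSpace Y] : Prop :=
  T0Space Y ∧ ∀ (i : ℕ) (Q : W i → Set Y), (∀ a, IsCompact (Q a)) → Antitone Q →
    ∀ C, MinC Q C → ∃ y, C = closure {y}

theorem MinC.irr {Q : W i → Set X} (hQ : Antitone Q) {C : Set X} (h : MinC Q C) :
    IsIrreducible C := by
  refine ⟨(h.2.1 (Classical.arbitrary _)).mono inter_subset_right, fun U V hU hV h1 h2 => ?_⟩
  have key : ∀ U, IsOpen U → (C ∩ U).Nonempty → ∃ a, Q a ∩ C ⊆ U := by
    intro U hU ⟨x, hx1, hx2⟩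
    by_contra hn
    push Not at hn
    have := h.2.2 (C ∩ Uᶜ) (h.1.inter hU.isClosed_compl) inter_subset_left fun a => by
      obtain ⟨z, hz1, hz2⟩ := not_subset.mp (hn a)
      exact ⟨z, hz1.1, hz1.2, hz2⟩
    exact (this.symm ▸ hx1 : x ∈ C ∩ Uᶜ).2 hx2
  obtain ⟨a, ha⟩ := key U hU h1
  obtain ⟨b, hb⟩ := key V hV h2
  obtain ⟨z, hz1, hz2⟩ := h.2.1 (max a b)
  exact ⟨z, hz2, ha ⟨hQ (le_max_left _ _) hz1, hz2⟩, hb ⟨hQ (le_max_right _ _) hz1, hz2⟩⟩

theorem K1_sober (Y : Type) [TopologicalSpace Y] (h : T0Space Y) (h' : QuasiSober Y) : K1 Y :=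
  ⟨h, fun _ _ _ hQ _ hC => by
    obtain ⟨y, hy⟩ := h'.sober (hC.irr hQ) hC.1
    exact ⟨y, hy.symm⟩⟩

theorem MinC.det {Q : W i → Set X} (h1 : ∀ a, IsCompact (Q a)) (hQ : Antitone Q) {C : Set X}
    (h : MinC Q C) (hY : K1 Y) {f : X → Y} (hf : Continuous f) :
    ∃ y, closure (f '' C) = closure {y} := by
  refine hY.2 i (fun a => f '' (Q a ∩ C)) (fun a => ((h1 a).inter_right h.1).image hf)
    (fun a b hab => image_mono (inter_subset_inter_left _ (hQ hab))) _
    ⟨isClosed_closure, fun a => ?_, fun B hB h2 h3 => Subset.antisymm h2 (closure_minimal ?_ hB)⟩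
  · obtain ⟨z, hz⟩ := h.2.1 a
    exact ⟨f z, ⟨z, hz, rfl⟩, subset_closure ⟨z, hz.2, rfl⟩⟩
  · have := h.2.2 (C ∩ f ⁻¹' B) (h.1.inter (hB.preimage hf)) inter_subset_left fun a => by
      obtain ⟨_, ⟨z, hz, rfl⟩, hz'⟩ := h3 a
      exact ⟨z, hz.1, hz.2, hz'⟩
    rintro _ ⟨z, hz, rfl⟩
    exact (this.symm ▸ hz : z ∈ C ∩ f ⁻¹' B).2

theorem rudin {Q : W i → Set X} (h1 : ∀ a, IsCompact (Q a)) {C : Set X} (hC : IsClosed C)
    (h : ∀ a, (Q a ∩ C).Nonempty) : ∃ B ⊆ C, MinC Q B := by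
  obtain ⟨B, hB, hm⟩ := zorn_superset_nonempty {B | IsClosed B ∧ ∀ a, (Q a ∩ B).Nonempty} (by
    intro c hc hch hne
    refine ⟨⋂₀ c, ⟨isClosed_sInter fun t ht => (hc ht).1, fun a => ?_⟩,
      fun s hs => sInter_subset_of_mem hs⟩
    have : Nonempty c := hne.to_subtype
    by_contra hn
    obtain ⟨t, ht⟩ := (h1 a).elim_directed_family_closed (fun t : c => t.1) (fun t => (hc t.2).1)
      (by rw [← sInter_eq_iInter]; exact not_nonempty_iff_eq_empty.mp hn)
      (directedOn_iff_directed.mp (IsChain.directedOn hch.symm))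
    exact ((hc t.2).2 a).ne_empty ht) C ⟨hC, h⟩
  exact ⟨B, hB, hm.1.1, hm.1.2, fun B' h2 h3 h4 => Subset.antisymm h3 (hm.2 ⟨h2, h4⟩ h3)⟩

theorem irr_filter {C : Set X} (hC : IsIrreducible C) :
    ∃ F : Filter X, F.NeBot ∧ C ∈ F ∧ ∀ V, IsOpen V → (C ∩ V).Nonempty → V ∈ F := by
  refine ⟨⟨{S | ∃ V, IsOpen V ∧ (C ∩ V).Nonempty ∧ C ∩ V ⊆ S},
    ⟨univ, isOpen_univ, by simpa using hC.1, subset_univ _⟩,
    fun ⟨V, h1, h2, h3⟩ h => ⟨V, h1, h2, h3.trans h⟩,
    fun ⟨V, h1, h2, h3⟩ ⟨V', h1', h2', h3'⟩ => ⟨V ∩ V', h1.inter h1', hC.2 V V' h1 h1' h2 h2',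
      fun x hx => ⟨h3 ⟨hx.1, hx.2.1⟩, h3' ⟨hx.1, hx.2.2⟩⟩⟩⟩, ?_,
    ⟨univ, isOpen_univ, by simpa using hC.1, inter_subset_left⟩,
    fun V h1 h2 => ⟨V, h1, h2, inter_subset_right⟩⟩
  exact forall_mem_nonempty_iff_neBot.mp fun S ⟨V, _, h2, h3⟩ => h2.mono h3

theorem K1_adequate (X : Type) [TopologicalSpace X] : K1 (PH K1 X) := by
  have ho : ∀ U : Set X, IsOpen U → IsOpen {A : PH K1 X | (A.1 ∩ U).Nonempty} := fun U hU =>
    TopologicalSpace.isOpen_generateFrom_of_mem ⟨U, hU, rfl⟩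
  have hs : ∀ A B : PH K1 X, A ⤳ B ↔ B.1 ⊆ A.1 := by
    intro A B
    constructor
    · intro h x hx
      by_contra hn
      obtain ⟨y, h1, h2⟩ := h.mem_open (ho _ A.2.1.isOpen_compl) ⟨x, hx, hn⟩
      exact h2 h1
    · intro h
      rw [specializes_iff_pure, TopologicalSpace.nhds_generateFrom]
      simp only [le_iInf_iff, Filter.le_principal_iff, Filter.mem_pure]
      rintro S ⟨h1, U, _, rfl⟩
      exact h1.mono (inter_subset_inter_left _ h)
  refine ⟨⟨fun A B h => Subtype.ext (Subset.antisymm ((hs _ _).mp h.specializes')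
    ((hs _ _).mp h.specializes))⟩, fun i Q h1 h2 C hC => ?_⟩
  have hB : KDet K1 X (closure (⋃ A ∈ C, A.1)) := by
    intro Y _ hY f hf
    choose φ hφ _ using fun A : PH K1 X => A.2.2 Y hY f hf
    have hφc : Continuous φ := by
      refine ⟨fun V hV => ?_⟩
      have : φ ⁻¹' V = {A : PH K1 X | (A.1 ∩ f ⁻¹' V).Nonempty} := by
        ext A
        have h1 : IsGenericPoint (φ A) (closure (f '' A.1)) := (hφ A).symm
        rw [mem_preimage, h1.mem_open_set_iff hV, closure_inter_open_nonempty_iff hV,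
          image_inter_nonempty_iff]
        rfl
      rw [this]
      exact ho _ (hV.preimage hf)
    obtain ⟨y, hy⟩ := hC.det h1 h2 hY hφc
    refine uniq hY.1 ⟨y, ?_⟩
    rw [← hy, closure_image_closure hf, image_iUnion₂]
    refine Subset.antisymm (closure_minimal (iUnion₂_subset fun A hA => ?_) isClosed_closure)
      (closure_minimal ?_ isClosed_closure)
    · refine subset_closure.trans ((hφ A).subset.trans (closure_mono ?_))
      exact singleton_subset_iff.mpr ⟨A, hA, rfl⟩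
    · rintro _ ⟨A, hA, rfl⟩
      have h3 : φ A ∈ closure (f '' A.1) := by
        rw [hφ]
        exact subset_closure rfl
      exact closure_mono (subset_biUnion_of_mem (u := fun A : PH K1 X => f '' A.1) hA) h3
  refine ⟨⟨closure (⋃ A ∈ C, A.1), isClosed_closure, hB⟩, Subset.antisymm (fun A hA => ?_)
    (closure_minimal (singleton_subset_iff.mpr ?_) hC.1)⟩
  · exact specializes_iff_mem_closure.mp
      ((hs _ _).mpr ((subset_biUnion_of_mem (u := fun A : PH K1 X => A.1) hA).trans subset_closure))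
  · obtain ⟨F, _, f1, f2⟩ := irr_filter (hC.irr h2)
    refine hC.1.mem_of_tendsto (b := F) (f := id) ?_ f1
    refine TopologicalSpace.tendsto_nhds_generateFrom_iff.mpr ?_
    rintro S ⟨U, hU, rfl⟩ h3
    obtain ⟨x, h4, h5⟩ := (closure_inter_open_nonempty_iff hU).mp h3
    obtain ⟨A, hA, ha⟩ := mem_iUnion₂.mp h4
    exact f2 _ (ho U hU) ⟨A, hA, x, ha, h5⟩

theorem box_open {U : Set X} (hU : IsOpen U) : IsOpen {Q : PS X | Q.1 ⊆ U} :=
  TopologicalSpace.isOpen_generateFrom_of_mem ⟨U, hU, rfl⟩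

theorem PS_spec (A B : PS X) : A ⤳ B ↔ A.1 ⊆ B.1 := by
  constructor
  · intro h x hx
    by_contra hn
    exact h.mem_open (box_open (isClosed_closure (s := {x})).isOpen_compl)
      (fun k hk hk' => hn (B.2.2.2 k hk x hk')) hx (subset_closure rfl)
  · intro h
    rw [specializes_iff_pure, TopologicalSpace.nhds_generateFrom]
    simp only [le_iInf_iff, Filter.le_principal_iff, Filter.mem_pure]
    rintro S ⟨h1, U, _, rfl⟩
    exact h.trans h1

theorem K1_smyth (Y : Type) [TopologicalSpace Y] (hY : K1 Y) : K1 (PS Y) := by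
  classical
  refine ⟨⟨fun A B h => Subtype.ext (Subset.antisymm ((PS_spec _ _).mp h.specializes)
    ((PS_spec _ _).mp h.specializes'))⟩, fun i 𝒬 h1 h2 𝒞 hC => ?_⟩
  let Q : W i → Set Y := fun a => ⋃ G ∈ 𝒬 a ∩ 𝒞, G.1
  have q1 : ∀ a, IsCompact (Q a) := by
    intro a
    refine isCompact_of_finite_subcover fun {ι} U hU hc => ?_
    obtain ⟨t, ht⟩ := ((h1 a).inter_right hC.1).elim_directed_cover
      (fun t : Finset ι => {G : PS Y | G.1 ⊆ ⋃ j ∈ t, U j})
      (fun t => box_open (isOpen_biUnion fun j _ => hU j))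
      (fun G hG => mem_iUnion.mpr (G.2.2.1.elim_finite_subcover U hU
        ((subset_biUnion_of_mem (u := fun G : PS Y => G.1) hG).trans hc)))
      (Monotone.directed_le fun s t hst G hG => hG.trans (biUnion_subset_biUnion_left hst))
    exact ⟨t, iUnion₂_subset fun G hG => ht hG⟩
  have q2 : Antitone Q := fun a b hab =>
    biUnion_subset_biUnion_left (inter_subset_inter_left _ (h2 hab))
  have q3 : ∀ a, ∀ x ∈ Q a, ∀ y, x ∈ closure {y} → y ∈ Q a := by
    intro a x hx y hy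
    obtain ⟨G, hG, h⟩ := mem_iUnion₂.mp hx
    exact mem_iUnion₂.mpr ⟨G, hG, G.2.2.2 x h y hy⟩
  have q4 : ∀ U, IsOpen U → ⋂ a, Q a ⊆ U → ∃ a, Q a ⊆ U := by
    intro U hU h
    by_contra hn
    push Not at hn
    obtain ⟨B, hB, hm⟩ := rudin q1 hU.isClosed_compl fun a => not_subset.mp (hn a)
    obtain ⟨y, rfl⟩ := hY.2 i Q q1 q2 B hm
    refine hB (subset_closure rfl) (h (mem_iInter.mpr fun a => ?_))
    obtain ⟨q, hq1, hq2⟩ := hm.2.1 a
    exact q3 a q hq1 y hq2
  have q5 : ∀ U a, Q a ⊆ U → ∃ G ∈ 𝒞, G.1 ⊆ U := by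
    intro U a ha
    obtain ⟨G, hG⟩ := hC.2.1 a
    exact ⟨G, hG.2, (subset_biUnion_of_mem (u := fun G : PS Y => G.1) hG).trans ha⟩
  refine ⟨⟨⋂ a, Q a, ?_, ?_, fun x hx y hy =>
    mem_iInter.mpr fun a => q3 a x (mem_iInter.mp hx a) y hy⟩, Subset.antisymm (fun L hL => ?_)
      (closure_minimal (singleton_subset_iff.mpr ?_) hC.1)⟩
  · by_contra hn
    obtain ⟨a, ha⟩ := q4 ∅ isOpen_empty (not_nonempty_iff_eq_empty.mp hn).subset
    obtain ⟨G, _, hG⟩ := q5 _ a ha
    exact G.2.1.ne_empty (subset_empty_iff.mp hG)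
  · refine isCompact_of_finite_subcover fun {ι} U hU hc => ?_
    obtain ⟨a, ha⟩ := q4 _ (isOpen_iUnion hU) hc
    obtain ⟨t, ht⟩ := (q1 a).elim_finite_subcover U hU ha
    exact ⟨t, (iInter_subset _ a).trans ht⟩
  · refine specializes_iff_mem_closure.mp ((PS_spec _ _).mpr fun x hx => ?_)
    have := hC.2.2 (𝒞 ∩ {G : PS Y | G.1 ⊆ (closure {x})ᶜ}ᶜ)
      (hC.1.inter (box_open isClosed_closure.isOpen_compl).isClosed_compl) inter_subset_left
      fun a => by
        obtain ⟨G, hG, h⟩ := mem_iUnion₂.mp (mem_iInter.mp hx a)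
        exact ⟨G, hG.1, hG.2, fun h' => h' h (subset_closure rfl)⟩
    obtain ⟨z, hz1, hz2⟩ := not_subset.mp (this.symm ▸ hL : L ∈ 𝒞 ∩ _).2
    exact L.2.2.2 z hz1 x (not_not.mp hz2)
  · obtain ⟨F, _, f1, f2⟩ := irr_filter (hC.irr h2)
    refine hC.1.mem_of_tendsto (b := F) (f := id) ?_ f1
    refine TopologicalSpace.tendsto_nhds_generateFrom_iff.mpr ?_
    rintro S ⟨U, hU, rfl⟩ h3
    obtain ⟨a, ha⟩ := q4 U hU h3
    exact f2 _ (box_open hU) (q5 U a ha)

end general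

theorem W_min (i : ℕ) : MinC (fun a : W i => Ici a) univ := by
  refine ⟨isClosed_univ, fun a => ⟨a, mem_Ici.mpr le_rfl, trivial⟩, fun B hB _ h => ?_⟩
  rcases closed_char hB ((h (Classical.arbitrary _)).mono inter_subset_right) with h' | ⟨b, rfl⟩
  · exact h'
  · obtain ⟨c, hc⟩ := exists_gt b
    obtain ⟨z, h1, h2⟩ := h c
    exact absurd (le_trans h1 h2) (not_le.mpr hc)

theorem Ici_compact (i : ℕ) (a : W i) : IsCompact (Ici a) := by
  classical
  refine isCompact_of_finite_subcover fun {ι} U hU hc => ?_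
  obtain ⟨j, hj⟩ := mem_iUnion.mp (hc (mem_Ici.mpr le_rfl))
  exact ⟨{j}, fun x hx => by simpa using IsUpper.isUpperSet_of_isOpen (hU j) hx hj⟩

inductive XX : Type
  | p : XX
  | w (i : ℕ) (a : W i) : XX

instance : TopologicalSpace XX where
  IsOpen U := (∀ i, IsOpen (XX.w i ⁻¹' U)) ∧ (XX.p ∈ U → ∀ᶠ i in cofinite, ∀ a, XX.w i a ∈ U)
  isOpen_univ := ⟨fun _ => isOpen_univ, fun _ => Eventually.of_forall fun _ _ => trivial⟩
  isOpen_inter := fun _ _ hs ht => ⟨fun i => (hs.1 i).inter (ht.1 i), fun h =>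
    ((hs.2 h.1).and (ht.2 h.2)).mono fun _ h a => ⟨h.1 a, h.2 a⟩⟩
  isOpen_sUnion := fun S hS => ⟨fun i => by
      rw [preimage_sUnion]; exact isOpen_biUnion fun t ht => (hS t ht).1 i,
    fun ⟨t, ht, h⟩ => ((hS t ht).2 h).mono fun _ h a => ⟨t, ht, h a⟩⟩

theorem w_cont (i : ℕ) : Continuous (XX.w i) := ⟨fun _ h => h.1 i⟩

theorem w_pre (i j : ℕ) (S : Set (W i)) (P : Set (W j) → Prop) (h0 : P ∅)
    (h1 : ∀ h : i = j, P (h ▸ S)) : P (XX.w j ⁻¹' (XX.w i '' S)) := by
  by_cases h : i = j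
  · subst h
    rw [preimage_image_eq _ fun a b hab => by simpa using hab]
    exact h1 rfl
  · have : XX.w j ⁻¹' (XX.w i '' S) = ∅ := by
      refine eq_empty_of_forall_notMem ?_
      rintro a ⟨b, _, hb⟩
      exact h (by injection hb)
    rwa [this]

theorem w_closed {i : ℕ} {S : Set (W i)} (h : IsClosed S) : IsClosed (XX.w i '' S) :=
  ⟨⟨fun j => (w_pre i j S IsClosed isClosed_empty (by rintro rfl; exact h)).isOpen_compl,
    fun _ => (eventually_cofinite_ne i).mono fun j hj a ⟨b, _, hb⟩ => hj (by injection hb with e; exact e.symm)⟩⟩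

theorem w_open {i : ℕ} {S : Set (W i)} (h : IsOpen S) : IsOpen (XX.w i '' S) :=
  ⟨fun j => w_pre i j S IsOpen isOpen_empty (by rintro rfl; exact h), by simp⟩

theorem p_closed : IsClosed {XX.p} :=
  ⟨⟨fun j => by
    have : XX.w j ⁻¹' {XX.p}ᶜ = univ := by ext; simp
    rw [this]; exact isOpen_univ, by simp⟩⟩

theorem cl_w {i : ℕ} {b : W i} {x : XX} (h : x ∈ closure {XX.w i b}) : ∃ a ≤ b, XX.w i a = x :=
  closure_minimal (t := XX.w i '' Iic b) (singleton_subset_iff.mpr ⟨b, mem_Iic.mpr le_rfl, rfl⟩)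
    (w_closed isClosed_Iic) h

theorem cl_p {x : XX} (h : x ∈ closure {XX.p}) : x = XX.p := by
  rwa [p_closed.closure_eq] at h

instance : T0Space XX := ⟨fun x y h => by
  have h1 := specializes_iff_mem_closure.mp h.specializes
  have h2 := specializes_iff_mem_closure.mp h.specializes'
  cases x with
  | p => exact (cl_p h1).symm
  | w i a =>
    obtain ⟨b, hb, rfl⟩ := cl_w h1
    obtain ⟨c, hc, h3⟩ := cl_w h2
    obtain rfl : c = a := by simpa using h3
    rw [le_antisymm hb hc]⟩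

theorem X_det (A : Set XX) (hA : IsIrreducible A) (hc : IsClosed A) : KDet K1 XX A := by
  intro Y _ hY f hf
  apply uniq hY.1
  by_cases h : ∃ i a, XX.w i a ∈ A
  · obtain ⟨i, a, ha⟩ := h
    have h1 : A = XX.w i '' (XX.w i ⁻¹' A) := by
      refine Subset.antisymm (fun z hz => ?_) (image_preimage_subset _ _)
      by_contra hn
      obtain ⟨_, _, h2, h3⟩ := hA.2 _ _ (w_open (i := i) isOpen_univ)
        (w_closed (i := i) isClosed_univ).isOpen_compl ⟨_, ha, a, trivial, rfl⟩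
        ⟨z, hz, fun ⟨b, _, hb⟩ => hn ⟨b, by rwa [mem_preimage, hb], hb⟩⟩
      exact h3 h2
    rw [h1, ← image_comp]
    rcases closed_char (hc.preimage (w_cont i)) ⟨a, ha⟩ with h2 | ⟨b, h2⟩
    · rw [h2]
      exact (W_min i).det (Ici_compact i) (fun _ _ h => Ici_subset_Ici.mpr h) hY
        (hf.comp (w_cont i))
    · rw [h2, ← IsUpper.closure_singleton, cl_cl (hf.comp (w_cont i))]
      exact ⟨_, rfl⟩
  · push Not at h
    have : A = {XX.p} := by
      refine hA.1.subset_singleton_iff.mp fun z hz => ?_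
      cases z with
      | p => rfl
      | w i a => exact absurd hz (h i a)
    exact ⟨f XX.p, by rw [this, image_singleton]⟩

def R2 (i : ℕ) : Type := WithTop (R i)

noncomputable instance (i : ℕ) : LinearOrder (R2 i) :=
  inferInstanceAs (LinearOrder (WithTop (R i)))
instance (i : ℕ) : OrderTop (R2 i) := inferInstanceAs (OrderTop (WithTop (R i)))
instance (i : ℕ) : WellFoundedLT (R2 i) := inferInstanceAs (WellFoundedLT (WithTop (R i)))
noncomputable instance (i : ℕ) : TopologicalSpace (R2 i) := Topology.upper _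
instance (i : ℕ) : IsUpper (R2 i) := ⟨rfl⟩

def ee (i : ℕ) (a : W i) : R2 i := ((eta i a : R i) : WithTop (R i))
def om (i : ℕ) : R2 i := ((⊤ : R i) : WithTop (R i))

theorem ee_le {i : ℕ} {a b : W i} : ee i a ≤ ee i b ↔ a ≤ b := WithTop.coe_le_coe.trans eta_le
theorem ee_lt (i : ℕ) (a : W i) : ee i a < om i := WithTop.coe_lt_coe.mpr (lt_top_iff_ne_top.mpr (eta_ne a))
theorem om_lt (i : ℕ) : om i < ⊤ := WithTop.coe_lt_top _
theorem lt_om {i : ℕ} {r : R2 i} (h : r < om i) : ∃ a, r = ee i a := by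
  cases r with
  | none => exact absurd h not_top_lt
  | some r =>
    rcases R_cases r with rfl | ⟨a, rfl⟩
    · exact absurd h (lt_irrefl _)
    · exact ⟨a, rfl⟩

def Y1 : Type := {y : ∀ i, R2 i // {i | y i = om i}.Finite}

noncomputable instance : TopologicalSpace Y1 :=
  inferInstanceAs (TopologicalSpace {y : ∀ i, R2 i // {i | y i = om i}.Finite})

theorem Y1_spec {y z : Y1} : y ⤳ z ↔ ∀ i, z.1 i ≤ y.1 i := by
  have : y ⤳ z ↔ y.1 ⤳ z.1 := subtype_specializes_iff _ _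
  rw [this, specializes_pi]
  simp only [spec_iff]

theorem co_cont (i : ℕ) : Continuous fun y : Y1 => y.1 i :=
  (continuous_apply i).comp continuous_subtype_val

theorem K1_Y1 : K1 Y1 := by
  refine ⟨inferInstanceAs (T0Space {y : ∀ i, R2 i // {i | y i = om i}.Finite}),
    fun k Q _ h2 C hC => ?_⟩
  have hirr := hC.irr h2
  have hz : ∀ i, ∃ z, closure ((fun y : Y1 => y.1 i) '' C) = Iic z := fun i => by
    rcases closed_char (isClosed_closure (s := (fun y : Y1 => y.1 i) '' C))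
      (hirr.1.image (fun y : Y1 => y.1 i)).closure with h | h
    · exact ⟨⊤, by rw [h]; simp⟩
    · exact h
  choose z hz using hz
  have hle : ∀ i, ∀ y ∈ C, y.1 i ≤ z i := fun i y hy => by
    have : y.1 i ∈ closure ((fun y : Y1 => y.1 i) '' C) := subset_closure ⟨y, hy, rfl⟩
    rwa [hz] at this
  have hfin : {i | z i = om i}.Finite := by
    have h3 : ∀ i, ∃ a, z i = om i → i ≠ k → ∀ y ∈ Q a ∩ C, y.1 i = om i := by
      intro i
      by_contra hn
      push Not at hn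
      obtain ⟨h4, h5, _⟩ := hn (Classical.arbitrary _)
      have hne : ∀ a, {s | ∃ y ∈ Q a ∩ C, y.1 i = ee i s}.Nonempty := fun a => by
        obtain ⟨_, _, y, hy, h6⟩ := hn a
        obtain ⟨s, hs⟩ := lt_om (lt_of_le_of_ne (h4 ▸ hle i y hy.2) h6)
        exact ⟨s, y, hy, hs⟩
      obtain ⟨b, hb⟩ := mono_bdd h5.symm (fun a => wellFounded_lt.min _ (hne a)) fun a b hab => by
        obtain ⟨y, hy, h6⟩ := wellFounded_lt.min_mem _ (hne b)
        exact not_lt.mp (wellFounded_lt.not_lt_min {s | ∃ y ∈ Q a ∩ C, y.1 i = ee i s}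
          ⟨y, ⟨h2 hab hy.1, hy.2⟩, h6⟩)
      have h6 := hC.2.2 (C ∩ (fun y : Y1 => y.1 i) ⁻¹' Iic (ee i b))
        (hC.1.inter (isClosed_Iic.preimage (co_cont i))) inter_subset_left fun a => by
          obtain ⟨y, hy, h6⟩ := wellFounded_lt.min_mem _ (hne a)
          exact ⟨y, hy.1, hy.2, h6.trans_le (ee_le.mpr (hb a))⟩
      have : closure ((fun y : Y1 => y.1 i) '' C) ⊆ Iic (ee i b) :=
        closure_minimal (by
          rintro _ ⟨y, hy, rfl⟩
          exact (h6.symm ▸ hy : y ∈ C ∩ _).2) isClosed_Iic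
      rw [hz, h4] at this
      exact absurd (this (mem_Iic.mpr le_rfl)) (not_le.mpr (ee_lt i b))
    choose x hx using h3
    obtain ⟨c, hc⟩ := bdd_count k x
    obtain ⟨y, hy⟩ := hC.2.1 c
    refine (y.2.insert k).subset fun i hi => ?_
    by_cases h : i = k
    · exact Or.inl h
    · exact Or.inr (hx i hi h y ⟨h2 (hc i).le hy.1, hy.2⟩)
  refine ⟨⟨z, hfin⟩, Subset.antisymm (fun y hy => ?_)
    (closure_minimal (singleton_subset_iff.mpr ?_) hC.1)⟩
  · exact specializes_iff_mem_closure.mp (Y1_spec.mpr fun i => hle i y hy)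
  · obtain ⟨F, _, f1, f2⟩ := irr_filter hirr
    refine hC.1.mem_of_tendsto (b := F) (f := id) ?_ f1
    refine tendsto_subtype_rng.mpr (tendsto_pi_nhds.mpr fun i => tendsto_nhds.mpr fun U hU hyU => ?_)
    have : z i ∈ closure ((fun y : Y1 => y.1 i) '' C) := by rw [hz]; exact mem_Iic.mpr le_rfl
    obtain ⟨_, h1, y, hy, rfl⟩ := mem_closure_iff.mp this U hU hyU
    exact f2 _ (hU.preimage (co_cont i)) ⟨y, hy, h1⟩

open Classical in
noncomputable def F0 (K : PS XX) (i : ℕ) : R2 i :=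
  if h : (XX.w i ⁻¹' K.1).Nonempty then ee i (wellFounded_lt.min _ h) else ⊤

theorem F0_le (K : PS XX) (i : ℕ) (r : R2 i) :
    F0 K i ≤ r ↔ r = ⊤ ∨ ∃ a, ee i a ≤ r ∧ XX.w i a ∈ K.1 := by
  unfold F0
  split_ifs with h
  · constructor
    · exact fun h' => Or.inr ⟨_, h', wellFounded_lt.min_mem _ h⟩
    · rintro (rfl | ⟨a, h1, h2⟩)
      · exact le_top
      · exact (ee_le.mpr (not_lt.mp (wellFounded_lt.not_lt_min (XX.w i ⁻¹' K.1) h2))).trans h1
  · rw [top_le_iff]
    exact ⟨Or.inl, fun h' => h'.resolve_right fun ⟨a, _, ha⟩ => h ⟨a, ha⟩⟩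

noncomputable def FF (K : PS XX) : Y1 := ⟨F0 K, by
  refine Set.finite_empty.subset fun i hi => ?_
  simp only [F0, mem_ofPred_eq] at hi
  split_ifs at hi
  · exact (ee_lt i _).ne hi
  · exact (om_lt i).ne' hi⟩

theorem FF_cont : Continuous FF := by
  refine Continuous.subtype_mk (continuous_pi fun i => ?_) _
  rw [IsUpper.continuous_iff_Iic]
  intro r
  by_cases hr : r = ⊤
  · simp [hr]
  have h1 : IsClosed {a : W i | ee i a ≤ r} := by
    rcases lt_or_ge r (om i) with h | h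
    · obtain ⟨b, rfl⟩ := lt_om h
      simp only [ee_le]
      exact isClosed_Iic
    · have : {a : W i | ee i a ≤ r} = univ := eq_univ_of_forall fun a => (ee_lt i a).le.trans h
      rw [this]; exact isClosed_univ
  have : (fun K => F0 K i) ⁻¹' Iic r = {K : PS XX | K.1 ⊆ (XX.w i '' {a | ee i a ≤ r})ᶜ}ᶜ := by
    ext K
    simp only [mem_preimage, mem_Iic, F0_le, hr, false_or, mem_compl_iff, mem_ofPred_eq,
      not_subset, not_not]
    exact ⟨fun ⟨a, h1, h2⟩ => ⟨_, h2, a, h1, rfl⟩, by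
      rintro ⟨_, h2, a, h1, rfl⟩; exact ⟨a, h1, h2⟩⟩
  rw [this]
  exact (box_open (w_closed h1).isOpen_compl).isClosed_compl

def Kg (g : ∀ i, W i) : PS XX := ⟨{x | ∀ i a, x = XX.w i a → g i ≤ a},
  ⟨XX.p, fun _ _ h => by simp at h⟩, by
    classical
    refine isCompact_of_finite_subcover fun {ι} U hU hc => ?_
    obtain ⟨j0, h0⟩ := mem_iUnion.mp (hc (a := XX.p) fun _ _ h => by simp at h)
    have h1 : ∀ i, ∃ j, XX.w i (g i) ∈ U j := fun i => mem_iUnion.mp (hc (by
      intro i' a h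
      injection h with e1 e2
      subst e1
      exact (eq_of_heq e2).le))
    choose j hj using h1
    have h2 := (hU j0).2 h0
    refine ⟨insert j0 (h2.toFinset.image j), fun x hx => ?_⟩
    cases x with
    | p => exact mem_iUnion₂.mpr ⟨j0, by simp, h0⟩
    | w i a =>
      by_cases h : ∀ a, XX.w i a ∈ U j0
      · exact mem_iUnion₂.mpr ⟨j0, by simp, h a⟩
      · exact mem_iUnion₂.mpr ⟨j i, Finset.mem_insert_of_mem (Finset.mem_image_of_mem _
          (h2.mem_toFinset.mpr h)),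
          IsUpper.isUpperSet_of_isOpen ((hU (j i)).1 i) (hx i a rfl) (hj i)⟩, by
    rintro x hx _ hy i b rfl
    obtain ⟨a, ha, rfl⟩ := cl_w hy
    exact (hx i a rfl).trans ha⟩

theorem result : ∃ K : ∀ (Y : Type) [TopologicalSpace Y], Prop,
    (∀ (Y : Type) [TopologicalSpace Y], K Y → T0Space Y) ∧
    (∀ (Y : Type) [TopologicalSpace Y], T0Space Y → QuasiSober Y → K Y) ∧
    (∀ (X : Type) [TopologicalSpace X], T0Space X → K (PH K X)) ∧
    (∀ (Y : Type) [TopologicalSpace Y], K Y → K (PS Y)) ∧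
    ∃ (X : Type) (_ : TopologicalSpace X), T0Space X ∧
      (∀ A : Set X, IsIrreducible A → IsClosed A → KDet K X A) ∧
      ∃ 𝒜 : Set (PS X), IsIrreducible 𝒜 ∧ IsClosed 𝒜 ∧ ¬ KDet K (PS X) 𝒜 := by
  classical
  refine ⟨K1, fun _ _ h => h.1, K1_sober, fun X _ _ => K1_adequate X, K1_smyth, XX, inferInstance,
    inferInstance, X_det, closure (range Kg), IsIrreducible.closure ⟨range_nonempty _, ?_⟩,
    isClosed_closure, fun h => ?_⟩
  · rintro U V hU hV ⟨_, ⟨g, rfl⟩, h1⟩ ⟨_, ⟨g', rfl⟩, h2⟩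
    exact ⟨_, ⟨fun i => max (g i) (g' i), rfl⟩,
      ((PS_spec (Kg fun i => max (g i) (g' i)) (Kg g)).mpr
        fun x hx i a h => (le_max_left _ _).trans (hx i a h)).mem_open hU h1,
      ((PS_spec (Kg fun i => max (g i) (g' i)) (Kg g')).mpr
        fun x hx i a h => (le_max_right _ _).trans (hx i a h)).mem_open hV h2⟩
  obtain ⟨y, hy, _⟩ := h Y1 K1_Y1 FF FF_cont
  rw [closure_image_closure FF_cont] at hy
  obtain ⟨i, hi⟩ := y.2.exists_notMem
  have h1 : y.1 i ≤ om i := by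
    have : closure (FF '' range Kg) ⊆ (fun y : Y1 => y.1 i) ⁻¹' Iic (om i) :=
      closure_minimal (by
        rintro _ ⟨_, ⟨g, rfl⟩, rfl⟩
        refine (F0_le _ _ _).mpr (Or.inr ⟨g i, (ee_lt _ _).le, ?_⟩)
        intro i' a h
        injection h with e1 e2
        subst e1
        exact (eq_of_heq e2).le) (isClosed_Iic.preimage (co_cont i))
    exact this (hy ▸ subset_closure rfl)
  obtain ⟨a, ha⟩ := lt_om (lt_of_le_of_ne h1 hi)
  obtain ⟨b, hb⟩ := exists_gt a
  have h2 : FF (Kg (Function.update (fun _ => Classical.arbitrary _) i b)) ∈ closure {y} :=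
    hy ▸ subset_closure ⟨_, ⟨_, rfl⟩, rfl⟩
  have h3 := Y1_spec.mp (specializes_iff_mem_closure.mpr h2) i
  rw [ha] at h3
  rcases (F0_le _ _ _).mp h3 with h4 | ⟨c, h4, h5⟩
  · exact ((ee_lt i a).trans (om_lt i)).ne h4
  · have := h5 i c rfl
    rw [Function.update_self] at this
    exact absurd (this.trans (ee_le.mp h4)) (not_le.mpr hb)

end Pool.Agent.Results.MP_360cb4_gt.Counter
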